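import Pool.Agent.Lib_helper52.YG.Defs
import Pool.Agent.Lib_helper33.EPS.A3
import Pool.Agent.Lib_helper33.EPS.A2

set_option autoImplicit false

namespace Pool.Agent.YG

open MeasureTheory ENNReal Set Filter Topology Pool.Agent.EPS

/-- the inverse transport map, from a nice density to the Gaussian -/
theorem inv_tr {a b m M : ℝ} {f : ℝ → ℝ} (h : Nice a b m M f) : ∃ S : ℝ → ℝ,
    StrictMonoOn S (Ioo a b) ∧ ∀ x ∈ Ioo a b, HasDerivAt S (f x / ga (S x)) x := by
  classical
  obtain ⟨T, hT⟩ := exists_Tr h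
  obtain ⟨hmono, hcont, -⟩ := tr_cont h hT
  have hex : ∀ y : ℝ, ∃ x : ℝ, y ∈ Ioo a b → T x = y := by
    intro y
    by_cases hy : y ∈ Ioo a b
    · obtain ⟨x, hx⟩ := hT.sur y hy
      exact ⟨x, fun _ => hx⟩
    · exact ⟨0, fun h0 => absurd h0 hy⟩
  choose S hS using hex
  have hST : ∀ z, S (T z) = z := fun z => hmono.injective (hS (T z) (hT.mem z))
  have hSmono : StrictMonoOn S (Ioo a b) := by
    intro x hx y hy hxy
    by_contra hcon
    have h1 : S y ≤ S x := not_lt.1 hcon
    have h2 := hmono.monotone h1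
    rw [hS x hx, hS y hy] at h2
    exact absurd hxy (not_lt.2 h2)
  refine ⟨S, hSmono, fun x hx => ?_⟩
  have hnh : Ioo a b ∈ 𝓝 x := isOpen_Ioo.mem_nhds hx
  have himg : S '' Ioo a b = univ := by
    ext z
    constructor
    · intro _
      exact mem_univ z
    · intro _
      exact ⟨T z, hT.mem z, hST z⟩
  have hSc : ContinuousAt S x := by
    apply hSmono.continuousAt_of_image_mem_nhds hnh
    rw [himg]
    exact univ_mem
  have hder := hT.der (S x)
  have hTS : T (S x) = x := hS x hx
  rw [hTS] at hder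
  have hfx : 0 < f x := lt_of_lt_of_le h.m0 (h.lo x (Ioo_subset_Icc_self hx))
  have hne : ga (S x) / f x ≠ 0 := (div_pos (ga_pos (S x)) hfx).ne'
  have hev : ∀ᶠ y in 𝓝 x, T (S y) = y := by
    filter_upwards [hnh] with y hy
    exact hS y hy
  have h2 := HasDerivAt.of_local_left_inverse hSc hder hne hev
  rw [inv_div] at h2
  exact h2

end Pool.Agent.YG
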