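import Pool.Agent.Lib_helper52.YG.Defs

set_option autoImplicit false

namespace Pool.Agent.YG

open MeasureTheory ENNReal Set Filter Topology Pool.Agent.EPS

/-- Jensen's inequality for the exponential function -/
theorem jensen_exp {Ω : Type*} [MeasurableSpace Ω] (μ : Measure Ω) [IsProbabilityMeasure μ]
    (l : Ω → ℝ) (hl : Integrable l μ) (κ : ℝ)
    (h : ∫⁻ p, ENNReal.ofReal (Real.exp (l p)) ∂μ ≤ ENNReal.ofReal κ) :
    Real.exp (∫ p, l p ∂μ) ≤ κ := by
  have hm : AEStronglyMeasurable (fun p => Real.exp (l p)) μ :=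
    Real.continuous_exp.comp_aestronglyMeasurable hl.1
  have hfin : ∫⁻ p, ENNReal.ofReal (Real.exp (l p)) ∂μ < ∞ :=
    lt_of_le_of_lt h ENNReal.ofReal_lt_top
  have hint : Integrable (fun p => Real.exp (l p)) μ := by
    refine ⟨hm, ?_⟩
    rw [hasFiniteIntegral_iff_ofReal (Filter.Eventually.of_forall fun p => (Real.exp_pos _).le)]
    exact hfin
  have hJ : Real.exp (∫ p, l p ∂μ) ≤ ∫ p, Real.exp (l p) ∂μ :=
    convexOn_exp.map_integral_le Real.continuous_exp.continuousOn isClosed_univ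
      (Filter.Eventually.of_forall fun p => mem_univ _) hl hint
  have hI : ∫ p, Real.exp (l p) ∂μ = (∫⁻ p, ENNReal.ofReal (Real.exp (l p)) ∂μ).toReal :=
    integral_eq_lintegral_of_nonneg_ae
      (Filter.Eventually.of_forall fun p => (Real.exp_pos _).le) hm
  have h1 : (∫⁻ p, ENNReal.ofReal (Real.exp (l p)) ∂μ).toReal ≤ (ENNReal.ofReal κ).toReal :=
    ENNReal.toReal_mono ENNReal.ofReal_ne_top h
  have hpos : 0 < Real.exp (∫ p, l p ∂μ) := Real.exp_pos _
  rcases le_or_gt κ 0 with h0 | h0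
  · rw [ENNReal.ofReal_of_nonpos h0, ENNReal.toReal_zero] at h1
    linarith
  · rw [ENNReal.toReal_ofReal h0.le] at h1
    linarith

end Pool.Agent.YG
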